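import Pool.Agent.Lib_helper98.LSPC.Mark
import Pool.Agent.Lib_helper53.LSPAF.GlueB
import Pool.Agent.Lib_helper15.LSPF.PG4
import Pool.Agent.Lib_helper46.GA.X10

/-!
# A positive proportion of the primes of a clean range has a small off-diagonal
-/

set_option autoImplicit false

namespace Pool.Agent.LSP

open Finset Filter
open Pool.Agent.LSPO (ODg GOK b1 Par)
open Pool.Agent.LSPP (wJ wT wT_pos wJ_nonneg wJ_le wJ_sum p_grid)

/-- in a clean range a positive proportion of the primes has a small off-diagonal, if the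
off-diagonal is bounded below -/
theorem arith_count {c₁ : ℝ} (h1 : 0 < c₁) : ∃ κ₀ : ℝ, 0 < κ₀ ∧ ∀ κ : ℝ, 0 < κ → κ ≤ κ₀ →
    ∀ {T : ℝ} {ρ : ℝ → ℝ}, KerL T ρ → ∀ {B₀ : ℕ}, 1 + T ^ 2 ≤ (B₀ : ℝ) → ∀ B : ℕ, ∃ B' : ℕ,
    ∀ δ Λ : ℝ, 0 < δ → 0 ≤ Λ → ∃ c : ℝ, 0 < c ∧ ∃ X₀ : ℕ, ∀ X : ℕ, X₀ ≤ X →
    GA.Good c₁ ⌊(X : ℝ) ^ (124 * κ)⌋₊ → ∀ (E : ℕ) (x : ℕ → ℝ), 1 ≤ E → Adm κ B B' X E x →
      (∀ N : ℕ, N.Prime → X ≤ 2 * N → N ≤ 4 * X → -Λ ≤ OD ρ B₀ E x N) →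
      c * (X / Real.log X) ≤ (#((Icc 1 (4 * X)).filter
        (fun N => N.Prime ∧ X ≤ 2 * N ∧ OD ρ B₀ E x N ≤ δ)) : ℝ) := by
  classical
  obtain ⟨C, hC1, κ₁, hκ₁, hga⟩ := GA.gal_weights_grid h1
  refine ⟨min κ₁ (1 / 1000), by positivity, fun κ h0 hκ T ρ hρ B₀ hB B => ?_⟩
  have hκ1 : κ ≤ κ₁ := hκ.trans (min_le_left _ _)
  have hκ2 : κ ≤ 1 / 1000 := hκ.trans (min_le_right _ _)
  obtain ⟨cc, hG⟩ := gok_gg hρ
  obtain ⟨B', hB'⟩ := p_grid hG (gg_anti_all hρ) hB B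
  obtain ⟨c₀, hc₀e⟩ : ∃ c₀ : ℝ, c₀ = wT := ⟨_, rfl⟩
  have hc₀ : 0 < c₀ := by rw [hc₀e]; exact wT_pos
  refine ⟨B', fun δ Λ hδ hΛ => ?_⟩
  set δ₁ : ℝ := δ * c₀ / 8 with hδ₁
  have hδ₁0 : 0 < δ₁ := by positivity
  set V : ℝ := δ * c₀ / 8 / (3 * δ / 8 + Λ) * ((5 * δ / 8) / (δ + Λ)) with hV
  have hV0 : 0 < V := by positivity
  obtain ⟨X1, hX1⟩ := hB' κ h0 hκ2 δ₁ hδ₁0
  obtain ⟨X2, hX2⟩ := hga κ h0 hκ1
  obtain ⟨X3, hX3⟩ := avg_at hG h0 hκ2 hB B B'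
  obtain ⟨X4, hX4⟩ := eventually_atTop.1 (glue_ev (8 / δ) (a := 0) (b := κ / 8) (by linarith))
  refine ⟨V / (8 * C), by positivity, max (max X1 X2) (max (max X3 X4) 4),
    fun X hX hgood E x hE hA hlow => ?_⟩
  have g1 : X1 ≤ X := ((le_max_left _ _).trans (le_max_left _ _)).trans hX
  have g2 : X2 ≤ X := ((le_max_right _ _).trans (le_max_left _ _)).trans hX
  have g3 : X3 ≤ X :=
    ((le_max_left _ _).trans ((le_max_left _ _).trans (le_max_right _ _))).trans hX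
  have g4 : X4 ≤ X :=
    ((le_max_right _ _).trans ((le_max_left _ _).trans (le_max_right _ _))).trans hX
  have g5 : 4 ≤ X := ((le_max_right _ _).trans (le_max_right _ _)).trans hX
  have hXr : (4 : ℝ) ≤ X := by exact_mod_cast g5
  have hX0 : (0 : ℝ) < X := by linarith
  have hX1' : (1 : ℝ) ≤ X := by linarith
  have hlog : 0 < Real.log X := Real.log_pos (by linarith)
  have f4 := hX4 X g4
  rw [Real.rpow_zero, mul_one] at f4
  -- the grid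
  set J : ℕ := ⌈(X : ℝ) ^ (40 * κ)⌉₊ with hJ
  have hJX : (X : ℝ) ^ (40 * κ) ≤ J := Nat.le_ceil _
  have hJ1 : 1 ≤ J := by
    have h2 : (1 : ℝ) ≤ J := (Real.one_le_rpow hX1' (by linarith : 0 ≤ 40 * κ)).trans hJX
    exact_mod_cast h2
  have hJr : (0 : ℝ) < J := by exact_mod_cast hJ1
  have hZ : ∀ j < J, (X : ℝ) ≤ X * (1 + j / J) ∧ X * (1 + j / J) ≤ 2 * (X : ℝ) ∧
      (1 : ℝ) ≤ 1 + j / J ∧ 1 + (j : ℝ) / J ≤ 2 := by
    intro j hj
    have h2 : (0 : ℝ) ≤ (j : ℝ) / J := by positivity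
    have h3 : (j : ℝ) / J ≤ 1 := by
      rw [div_le_one hJr]
      exact_mod_cast hj.le
    refine ⟨?_, ?_, by linarith, by linarith⟩
    · nlinarith
    · nlinarith
  obtain ⟨P, u, hPu, hcol⟩ := hX2 X g2 hgood J hJX
  have e1 : ((X : ℝ) ^ κ) ^ (34 : ℝ) = (X : ℝ) ^ (34 * κ) := by
    rw [← Real.rpow_mul hX0.le, mul_comm]
  have e2 : ((X : ℝ) ^ κ) ^ (-33 : ℝ) = (X : ℝ) ^ (-33 * κ) := by
    rw [← Real.rpow_mul hX0.le, mul_comm]
  have hP' : ∀ j < J, ∀ p ∈ P j, p.Prime ∧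
      |Real.log ((p : ℝ) / (X * (1 + j / J)))| ≤ (X : ℝ) ^ (-(16 * κ)) ∧ 0 < u j p ∧
      u j p ≤ (X : ℝ) ^ (34 * κ) / X := by
    intro j hj p hp
    obtain ⟨k1, k2, k3, k4⟩ := (hPu j hj).1 p hp
    rw [e1] at k4
    rw [e2] at k2
    exact ⟨k1, k2.trans (Real.rpow_le_rpow_of_exponent_le hX1' (by linarith)), k3, k4⟩
  have hav : ∀ j : ℕ, ∃ b : ℕ → ℝ, j < J → (∀ p ∈ P j, X ≤ 2 * p ∧ p ≤ 4 * X) ∧
      (∀ p ∈ P j, 0 ≤ b p ∧ b p ≤ 2 * u j p) ∧ ∑ p ∈ P j, b p = 1 ∧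
        |∑ p ∈ P j, b p * OD ρ B₀ E x p - b1 (CC E x) (GG ρ) (E ^ 2) (Gs B₀ E)
          (2 * (B₀ + 1) * E) ((X : ℝ) ^ (-(4 * κ))) (X * (1 + j / J))| ≤
            (X : ℝ) ^ (-(κ / 8)) := by
    intro j
    by_cases hj : j < J
    · obtain ⟨z1, z2, -, -⟩ := hZ j hj
      obtain ⟨hw, b, hb, hb1, hb2⟩ := hX3 X g3 E x hE hA (X * (1 + j / J)) z1 z2 (P j) (u j)
        (hP' j hj) (hPu j hj).2.1 (hPu j hj).2.2
      exact ⟨b, fun _ => ⟨hw, hb, hb1, hb2⟩⟩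
    · exact ⟨0, fun h => absurd h hj⟩
  choose b hb using hav
  set S := (Icc 1 (4 * X)).filter (fun N => N.Prime ∧ X ≤ 2 * N ∧ OD ρ B₀ E x N ≤ δ) with hS
  have hY : (X : ℝ) ^ (-(κ / 8)) ≤ δ / 8 := by
    rw [Real.rpow_neg hX0.le, inv_le_comm₀ (by positivity) (by positivity)]
    refine le_trans (le_of_eq ?_) f4
    rw [inv_div]
  have hlog4 : ∀ p ∈ S, Real.log p ≤ 2 * Real.log X := by
    intro p hp
    rw [hS, Finset.mem_filter, Finset.mem_Icc] at hp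
    have h2 : (0 : ℝ) < p := by exact_mod_cast hp.2.1.pos
    have h3 : (p : ℝ) ≤ X ^ 2 := by
      have h4 : (p : ℝ) ≤ 4 * X := by exact_mod_cast hp.1.2
      nlinarith
    calc Real.log p ≤ Real.log ((X : ℝ) ^ 2) := Real.log_le_log h2 h3
      _ = 2 * Real.log X := by rw [Real.log_pow]; norm_num
  have hmain := LSPC.grid_count
    (J := J) hJ1 P b (OD ρ B₀ E x)
    (fun j => b1 (CC E x) (GG ρ) (E ^ 2) (Gs B₀ E) (2 * (B₀ + 1) * E)
      ((X : ℝ) ^ (-(4 * κ))) (X * (1 + j / J))) (fun j => J * wJ J j)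
    (Λ := Λ) (δ := δ) (c₀ := c₀) (W := 8 * C * Real.log X / X) hδ hΛ
    (fun j hj p hp => ((hb j hj).2.1 p hp).1) (fun j hj => (hb j hj).2.2.1)
    (fun j hj p hp => hlow p (hP' j hj p hp).1 ((hb j hj).1 p hp).1 ((hb j hj).1 p hp).2)
    (fun j hj => (hb j hj).2.2.2.trans hY)
    (fun j hj => ⟨mul_nonneg hJr.le (wJ_nonneg J j), by
      have h2 := wJ_le hJ1 j
      rw [le_div_iff₀ hJr] at h2
      linarith⟩)
    (by rw [← Finset.mul_sum, wJ_sum hJ1, hc₀e, mul_comm])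
    (by
      have h2 := (le_abs_self _).trans (hX1 X g1 E x hA J hJX)
      have h3 := mul_le_mul_of_nonneg_left h2 hJr.le
      rw [Finset.mul_sum] at h3
      refine le_trans (le_of_eq (Finset.sum_congr rfl fun j _ => ?_)) (h3.trans (le_of_eq ?_))
      · ring
      · rw [hδ₁]; ring) S
    (fun j hj p hp hp2 => by
      rw [hS, Finset.mem_filter, Finset.mem_Icc]
      exact ⟨⟨(hP' j hj p hp).1.one_le, ((hb j hj).1 p hp).2⟩, (hP' j hj p hp).1,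
        ((hb j hj).1 p hp).1, hp2⟩)
    (fun p hp => by
      have hp' := hp
      rw [hS, Finset.mem_filter, Finset.mem_Icc] at hp'
      have h2 : (0 : ℝ) < p := by exact_mod_cast hp'.2.1.pos
      have h3 : (X : ℝ) / 2 ≤ p := by
        have h4 : (X : ℝ) ≤ 2 * p := by exact_mod_cast hp'.2.2.1
        linarith
      calc ∑ j ∈ (range J).filter (fun j => p ∈ P j), b j p
          ≤ ∑ j ∈ (range J).filter (fun j => p ∈ P j), 2 * u j p := by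
            refine Finset.sum_le_sum fun j hj => ?_
            rw [Finset.mem_filter, Finset.mem_range] at hj
            exact ((hb j hj.1).2.1 p hj.2).2
        _ = 2 * ∑ j ∈ (range J).filter (fun j => p ∈ P j), u j p := by rw [Finset.mul_sum]
        _ ≤ 2 * (C * J * Real.log p / p) := by
            have := hcol p
            linarith
        _ ≤ 2 * (C * J * (2 * Real.log X) / (X / 2)) := by
            have := hlog4 p hp
            gcongr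
        _ = 8 * C * Real.log X / X * J := by field_simp; ring)
  rw [← hV] at hmain
  have h9 : V / (8 * C) * (X / Real.log X) = V / (8 * C * Real.log X / X) := by
    field_simp
  rw [h9, div_le_iff₀ (by positivity)]
  linarith

end Pool.Agent.LSP
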