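import Mathlib

/-!
# The counting step: from averages over a grid of windows to a positive proportion
-/

set_option autoImplicit false

namespace Pool.Agent.LSPC

open Finset

/-- Markov's inequality for a probability weight on a finite set: if `F ≥ -Λ` and the mean of `F`
is at most `3 δ / 8`, then the mass of `{F ≤ δ}` is at least `(5 δ / 8) / (δ + Λ)` -/
theorem mass_low {P : Finset ℕ} {b F : ℕ → ℝ} {Λ δ : ℝ} (hδ : 0 < δ) (hΛ : 0 ≤ Λ)
    (hb0 : ∀ p ∈ P, 0 ≤ b p) (hb1 : ∑ p ∈ P, b p = 1) (hF : ∀ p ∈ P, -Λ ≤ F p)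
    (hm : ∑ p ∈ P, b p * F p ≤ 3 * δ / 8) :
    (5 * δ / 8) / (δ + Λ) ≤ ∑ p ∈ P.filter (fun p => F p ≤ δ), b p := by
  have h0 : 0 < δ + Λ := by linarith
  have h1 : ∑ p ∈ P, b p * (δ - (δ + Λ) * (if F p ≤ δ then 1 else 0)) ≤ ∑ p ∈ P, b p * F p := by
    refine Finset.sum_le_sum fun p hp => mul_le_mul_of_nonneg_left ?_ (hb0 p hp)
    split_ifs with h
    · have := hF p hp
      linarith
    · push Not at h
      linarith
  have h2 : ∑ p ∈ P, b p * (δ - (δ + Λ) * (if F p ≤ δ then 1 else 0)) =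
      δ - (δ + Λ) * ∑ p ∈ P.filter (fun p => F p ≤ δ), b p := by
    have e1 : ∀ p ∈ P, b p * (δ - (δ + Λ) * (if F p ≤ δ then 1 else 0)) =
        δ * b p - (δ + Λ) * (if F p ≤ δ then b p else 0) := by
      intro p _
      split_ifs <;> ring
    rw [Finset.sum_congr rfl e1, Finset.sum_sub_distrib, ← Finset.mul_sum, ← Finset.mul_sum, hb1,
      Finset.sum_filter]
    ring
  rw [div_le_iff₀ h0]
  linarith

/-- the counting step -/
theorem grid_count {J : ℕ} (hJ : 1 ≤ J) (P : ℕ → Finset ℕ) (b : ℕ → ℕ → ℝ) (F : ℕ → ℝ)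
    (β wg : ℕ → ℝ) {Λ δ c₀ W : ℝ} (hδ : 0 < δ) (hΛ : 0 ≤ Λ)
    (hb0 : ∀ j < J, ∀ p ∈ P j, 0 ≤ b j p) (hb1 : ∀ j < J, ∑ p ∈ P j, b j p = 1)
    (hF : ∀ j < J, ∀ p ∈ P j, -Λ ≤ F p)
    (hβ : ∀ j < J, |∑ p ∈ P j, b j p * F p - β j| ≤ δ / 8)
    (hw0 : ∀ j < J, 0 ≤ wg j ∧ wg j ≤ 1) (hw : c₀ * J ≤ ∑ j ∈ range J, wg j)
    (hs : ∑ j ∈ range J, wg j * β j ≤ δ * c₀ / 8 * J)
    (S : Finset ℕ) (hS : ∀ j < J, ∀ p ∈ P j, F p ≤ δ → p ∈ S)
    (hcol : ∀ p ∈ S, ∑ j ∈ (range J).filter (fun j => p ∈ P j), b j p ≤ W * J) :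
    δ * c₀ / 8 / (3 * δ / 8 + Λ) * ((5 * δ / 8) / (δ + Λ)) ≤ W * #S := by
  classical
  have hJ0 : (0 : ℝ) < J := by exact_mod_cast hJ
  have hK : 0 < 3 * δ / 8 + Λ := by linarith
  have hK2 : 0 < δ + Λ := by linarith
  set A := (range J).filter (fun j => β j ≤ δ / 4) with hA
  -- lower bound for `β`
  have hβl : ∀ j < J, -(Λ + δ / 8) ≤ β j := by
    intro j hj
    have h1 := abs_le.1 (hβ j hj)
    have h2 : -Λ ≤ ∑ p ∈ P j, b j p * F p := by
      calc -Λ = ∑ p ∈ P j, b j p * (-Λ) := by rw [← Finset.sum_mul, hb1 j hj, one_mul]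
        _ ≤ _ := Finset.sum_le_sum fun p hp =>
          mul_le_mul_of_nonneg_left (hF j hj p hp) (hb0 j hj p hp)
    linarith [h1.2]
  -- the number of good windows
  have hcard : δ * c₀ / 8 / (3 * δ / 8 + Λ) * J ≤ #A := by
    have h1 : ∑ j ∈ range J, (δ / 4 * wg j - (3 * δ / 8 + Λ) * (if β j ≤ δ / 4 then 1 else 0)) ≤
        ∑ j ∈ range J, wg j * β j := by
      refine Finset.sum_le_sum fun j hj => ?_
      have hj' := Finset.mem_range.1 hj
      obtain ⟨w0, w1⟩ := hw0 j hj'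
      have h3 := hβl j hj'
      split_ifs with h
      · -- wg β ≥ - wg (Λ + δ/8), and wg ≤ 1
        have h4 : -(wg j * (Λ + δ / 8)) ≤ wg j * β j := by nlinarith
        have h5 : wg j * (Λ + δ / 8 + δ / 4) ≤ 1 * (Λ + δ / 8 + δ / 4) :=
          mul_le_mul_of_nonneg_right w1 (by linarith)
        nlinarith
      · push Not at h
        nlinarith
    rw [Finset.sum_sub_distrib, ← Finset.mul_sum, ← Finset.mul_sum] at h1
    have h2 : ∑ j ∈ range J, (if β j ≤ δ / 4 then (1 : ℝ) else 0) = #A := by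
      rw [hA, Finset.card_filter]
      push_cast
      rfl
    rw [h2] at h1
    rw [div_mul_eq_mul_div, div_le_iff₀ hK]
    have h3 : δ / 4 * (c₀ * J) ≤ δ / 4 * ∑ j ∈ range J, wg j :=
      mul_le_mul_of_nonneg_left hw (by linarith)
    nlinarith
  -- the mass of the good primes
  have hmass : ∀ j ∈ A, (5 * δ / 8) / (δ + Λ) ≤ ∑ p ∈ (P j).filter (fun p => F p ≤ δ), b j p := by
    intro j hj
    rw [hA, Finset.mem_filter, Finset.mem_range] at hj
    refine mass_low hδ hΛ (hb0 j hj.1) (hb1 j hj.1) (hF j hj.1) ?_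
    have h1 := abs_le.1 (hβ j hj.1)
    linarith [h1.2]
  have h4 : (#A : ℝ) * ((5 * δ / 8) / (δ + Λ)) ≤
      ∑ j ∈ A, ∑ p ∈ (P j).filter (fun p => F p ≤ δ), b j p := by
    rw [← nsmul_eq_mul, ← Finset.sum_const]
    exact Finset.sum_le_sum hmass
  have h5 : ∑ j ∈ A, ∑ p ∈ (P j).filter (fun p => F p ≤ δ), b j p ≤
      ∑ j ∈ range J, ∑ p ∈ S, (if p ∈ P j then b j p else 0) := by
    refine (Finset.sum_le_sum (g := fun j => ∑ p ∈ S, (if p ∈ P j then b j p else 0))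
      fun j hj => ?_).trans ?_
    · rw [hA, Finset.mem_filter, Finset.mem_range] at hj
      rw [← Finset.sum_filter]
      refine Finset.sum_le_sum_of_subset_of_nonneg ?_ ?_
      · intro p hp
        rw [Finset.mem_filter] at hp ⊢
        exact ⟨hS j hj.1 p hp.1 hp.2, hp.1⟩
      · intro p hp _
        rw [Finset.mem_filter] at hp
        exact hb0 j hj.1 p hp.2
    · refine Finset.sum_le_sum_of_subset_of_nonneg (Finset.filter_subset _ _) ?_
      intro j hj _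
      rw [Finset.mem_range] at hj
      refine Finset.sum_nonneg fun p _ => ?_
      split_ifs with h
      · exact hb0 j hj p h
      · exact le_rfl
  have h6 : ∑ j ∈ range J, ∑ p ∈ S, (if p ∈ P j then b j p else 0) ≤ #S * (W * J) := by
    rw [Finset.sum_comm, ← nsmul_eq_mul, ← Finset.sum_const]
    refine Finset.sum_le_sum fun p hp => ?_
    rw [← Finset.sum_filter]
    exact hcol p hp
  have h7 : δ * c₀ / 8 / (3 * δ / 8 + Λ) * J * ((5 * δ / 8) / (δ + Λ)) ≤ #S * (W * J) := by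
    have h8 : δ * c₀ / 8 / (3 * δ / 8 + Λ) * J * ((5 * δ / 8) / (δ + Λ)) ≤
        #A * ((5 * δ / 8) / (δ + Λ)) :=
      mul_le_mul_of_nonneg_right hcard (by positivity)
    exact (h8.trans h4).trans (h5.trans h6)
  have h9 : δ * c₀ / 8 / (3 * δ / 8 + Λ) * ((5 * δ / 8) / (δ + Λ)) * J ≤ (W * #S) * J := by
    calc _ = δ * c₀ / 8 / (3 * δ / 8 + Λ) * J * ((5 * δ / 8) / (δ + Λ)) := by ring
      _ ≤ _ := h7
      _ = _ := by ring
  exact le_of_mul_le_mul_right h9 hJ0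

end Pool.Agent.LSPC
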